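import Pool.Agent.Helper18_SGE.Kit

noncomputable section

namespace Pool.Agent.SGE.H18

theorem tri_tail {V : Type} {R : V → V → V → Prop} {z : V} {L : List V} (h : Tri R (z :: L)) :
    Tri R L := by
  match L, h with
  | [], _ => trivial
  | [_], _ => trivial
  | _ :: _ :: _, h => exact h.2

theorem tri_mid {V : Type} {R : V → V → V → Prop} {x w y : V} {L' : List V} :
    ∀ L : List V, Tri R (L ++ x :: w :: y :: L') → R x w y
  | [], h => h.1
  | _ :: L, h => tri_mid L (tri_tail h)

theorem con_adj {V : Type} [Fintype V] {a b : V} {C : List V} {E : V → V → Prop}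
    {F : V → V → V → Prop} (h : NT a b C E F) {p q : V} (hc : Con C p q) : E p q := by
  obtain ⟨P, Q, hC⟩ := hc
  have hbd := h.bd
  rw [hC] at hbd
  obtain ⟨L, e, hL⟩ : ∃ (L : List V) (e : V), b :: P = L ++ [e] := by
    have hne : b :: P ≠ [] := by simp
    exact ⟨(b :: P).dropLast, (b :: P).getLast hne, (List.dropLast_append_getLast hne).symm⟩
  have hl : b :: (P ++ p :: q :: Q ++ [a]) = L ++ e :: p :: q :: (Q ++ [a]) := by
    have : b :: (P ++ p :: q :: Q ++ [a]) = (b :: P) ++ p :: q :: (Q ++ [a]) := by simp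
    rw [this, hL]
    simp
  rw [hl] at hbd
  obtain ⟨l, -, h2, -, -, h5, -⟩ := tri_mid L hbd
  exact (h5 q).2 (List.mem_of_getLast? h2)

theorem ang_aux {u p r w : ℝ × ℝ} (h1 : u.1 < p.1) (h2 : p.1 < r.1) (h3 : p.1 < w.1)
    (h4 : 0 < o u p r) (h5 : 0 < o p r w) : 0 < o u p w := by
  have hid : (r.1 - p.1) * o u p w = (w.1 - p.1) * o u p r + (p.1 - u.1) * o p r w := by
    simp only [o]; ring
  have e1 := mul_pos (show 0 < w.1 - p.1 by linarith) h4
  have e2 := mul_pos (show 0 < p.1 - u.1 by linarith) h5
  by_contra hc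
  push Not at hc
  have := mul_nonpos_of_nonneg_of_nonpos (show 0 ≤ r.1 - p.1 by linarith) hc
  linarith

/-- a switch in a list -/
theorem switch {V : Type} {C : List V} {b : V} {A B : V → V → Prop} (hb : C.getLast? = some b)
    (hpair : ∀ p q, Con C p q → A p q ∨ B p q) (hlast : ∀ u, Con C u b → ¬ A u b) :
    ∀ (Q P : List V) (u p : V), C = P ++ u :: p :: Q → A u p →
      ∃ (P' : List V) (u' p' w' : V) (Q' : List V), C = P' ++ u' :: p' :: w' :: Q' ∧ A u' p' ∧
        B p' w'
  | [], P, u, p, hC, hA => by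
    exfalso
    have hp : p = b := by
      rw [hC] at hb
      simpa using hb
    subst hp
    exact hlast u ⟨P, [], hC⟩ hA
  | w :: Q, P, u, p, hC, hA => by
    have hC' : C = (P ++ [u]) ++ p :: w :: Q := by rw [hC]; simp
    rcases hpair p w ⟨P ++ [u], Q, hC'⟩ with h | h
    · exact switch hb hpair hlast Q (P ++ [u]) p w hC' h
    · exact ⟨P, u, p, w, Q, hC, hA, h⟩

theorem adv (fce : FceStmt) (pnt : PntStmt) (ang : AngStmt) (fcr : FcrStmt) : AdvStmt := by
  intro V _ f T a b c C E F hT hO hS
  by_contra hcon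
  push Not at hcon
  obtain ⟨hn1, hn2, hn3⟩ := hcon
  have hnt := hS.nt
  have hmono : ∀ p q, Con C p q → (f p).1 < (f q).1 := by
    rintro p q ⟨P, Q, hC⟩
    have := hS.mono
    rw [hC, List.pairwise_append] at this
    exact (List.pairwise_cons.1 this.2.1).1 q (by simp)
  have hTcon : ∀ p q, Con C p q → T p q := fun p q h => hS.sub p q (con_adj hnt h)
  -- the labels
  have hpair : ∀ p q, Con C p q → ((p = a ∧ q = c) ∨ ∃ r, Fc f T p q r ∧ (f q).1 < (f r).1) ∨
      ((p = c ∧ q = b) ∨ ∃ r, Fc f T p q r ∧ (f r).1 < (f p).1) := by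
    intro p q hpq
    have hx := hmono p q hpq
    have hTpq := hTcon p q hpq
    by_cases h1 : p = a ∧ q = c
    · exact Or.inl (Or.inl h1)
    by_cases h2 : p = c ∧ q = b
    · exact Or.inr (Or.inl h2)
    obtain ⟨r, hr⟩ := fce hT hTpq (pnt hT hO hTpq hx h1 h2)
    have hrp : r ≠ p := by
      rintro rfl
      have := hr.pos
      rw [o_self1] at this
      exact lt_irrefl _ this
    have hrq : r ≠ q := by
      rintro rfl
      have := hr.pos
      rw [o_self2] at this
      exact lt_irrefl _ this
    rcases lt_or_gt_of_ne (hT.gp.x r p hrp) with h3 | h3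
    · exact Or.inr (Or.inr ⟨r, hr, h3⟩)
    rcases lt_or_gt_of_ne (hT.gp.x r q hrq) with h4 | h4
    · obtain ⟨P, Q, hC⟩ := hpq
      have := hn2 P p q Q r hC hr h3
      linarith
    · exact Or.inl (Or.inr ⟨r, hr, h4⟩)
  -- the first pair
  obtain ⟨w, Q, hC⟩ : ∃ w Q, C = a :: w :: Q := by
    have h1 := hnt.hd
    have h2 := hnt.ls
    match C, h1, h2 with
    | [], h1, _ => simp at h1
    | [x], h1, h2 =>
      simp at h1 h2
      exact absurd (h1.symm.trans h2) hnt.ab
    | x :: w :: Q, h1, _ =>
      simp at h1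
      subst h1
      exact ⟨w, Q, rfl⟩
  have hfirst : (a = a ∧ w = c) ∨ ∃ r, Fc f T a w r ∧ (f w).1 < (f r).1 := by
    rcases hpair a w ⟨[], Q, hC⟩ with h | h | ⟨r, hr, h⟩
    · exact h
    · exact absurd h.1 hO.ac
    · exfalso
      have : r ≠ a := by
        rintro rfl
        exact lt_irrefl _ h
      have := hO.xa r this
      linarith
  obtain ⟨P', u, p, w', Q', hC', hA, hB⟩ := switch hnt.ls hpair (by
    rintro u - (⟨-, h⟩ | ⟨r, -, h⟩)
    · exact hO.bc h
    · have : r ≠ b := by
        rintro rfl
        exact lt_irrefl _ h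
      have := hO.xb r this
      linarith) Q [] a w hC hfirst
  have hup : Con C u p := ⟨P', w' :: Q', hC'⟩
  have hpw : Con C p w' := ⟨P' ++ [u], Q', by rw [hC']; simp⟩
  have xup := hmono u p hup
  have xpw := hmono p w' hpw
  by_cases hpc : p = c
  · subst hpc
    have hyu := hO.yc u (by rintro rfl; exact lt_irrefl _ xup)
    have hyw := hO.yc w' (by rintro rfl; exact lt_irrefl _ xpw)
    have hua : u = a := by
      rcases hA with h | ⟨r, hr, h⟩
      · exact h.1
      · exfalso
        have hyr := hO.yc r (by rintro rfl; exact lt_irrefl _ h)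
        have := hr.pos
        rw [o] at this
        have k1 := mul_pos (show 0 < (f p).1 - (f u).1 by linarith)
          (show 0 < (f p).2 - (f r).2 by linarith)
        have k2 := mul_pos (show 0 < (f p).2 - (f u).2 by linarith)
          (show 0 < (f r).1 - (f p).1 by linarith)
        nlinarith
    have hwb : w' = b := by
      rcases hB with h | ⟨r, hr, h⟩
      · exact h.2
      · exfalso
        have hyr := hO.yc r (by rintro rfl; exact lt_irrefl _ h)
        have := hr.pos
        rw [o] at this
        have k1 := mul_pos (show 0 < (f w').1 - (f p).1 by linarith)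
          (show 0 < (f p).2 - (f r).2 by linarith)
        have k2 := mul_pos (show 0 < (f p).2 - (f w').2 by linarith)
          (show 0 < (f p).1 - (f r).1 by linarith)
        nlinarith
    subst hua hwb
    have hm := hS.mono
    rw [hC', List.pairwise_append] at hm
    have hP : P' = [] := by
      by_contra hne
      obtain ⟨z, hz⟩ := List.exists_mem_of_ne_nil _ hne
      have h1 := hm.2.2 z hz u (by simp)
      have : z ≠ u := by
        rintro rfl
        exact lt_irrefl _ h1
      have := hO.xa z this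
      linarith
    have hQ : Q' = [] := by
      by_contra hne
      obtain ⟨z, hz⟩ := List.exists_mem_of_ne_nil _ hne
      have h1 := (List.pairwise_cons.1 (List.pairwise_cons.1 (List.pairwise_cons.1 hm.2.1).2).2).1 z hz
      have : z ≠ w' := by
        rintro rfl
        exact lt_irrefl _ h1
      have := hO.xb z this
      linarith
    apply hn1
    rw [hC', hP, hQ]
    rfl
  · obtain ⟨r, hr, hxr⟩ : ∃ r, Fc f T u p r ∧ (f p).1 < (f r).1 := by
      rcases hA with h | h
      · exact absurd h.2 hpc
      · exact h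
    obtain ⟨s, hs, hxs⟩ : ∃ s, Fc f T p w' s ∧ (f s).1 < (f p).1 := by
      rcases hB with h | h
      · exact absurd h.1 hpc
      · exact h
    have hr' : Fc f T p r u := fcr hr
    have a1 := ang hT hr' (hTcon p w' hpw)
    have a2 := ang hT hs hr'.pq
    by_cases hrw : r = w'
    · subst hrw
      exact hn3 P' u p r Q' hC' hr
    · have hpr : p ≠ r := by
        rintro rfl
        exact lt_irrefl _ hxr
      have hpw' : p ≠ w' := by
        rintro rfl
        exact lt_irrefl _ xpw
      rcases lt_or_gt_of_ne (hT.gp.o p r w' hpr hpw' hrw) with h | h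
      · have h2 : 0 < o (f p) (f w') (f r) := by
          rw [o_swap]; linarith
        refine a2 ⟨h2, ang_aux hxs xpw hxr ?_ h2⟩
        rw [← o_rot (f s) (f p) (f w')]
        exact hs.pos
      · exact a1 ⟨h, ang_aux xup hxr xpw hr.pos h⟩

end Pool.Agent.SGE.H18
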