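import Pool.Agent.Helper18_SGE.Kit

noncomputable section

namespace Pool.Agent.SGE.H18

/-- The segment `u w` through the point `k` of the triangle leaves it, or `u` is inside. -/
theorem leave (tri : TriStmt) {V : Type} {f : V → ℝ × ℝ} {T : V → V → Prop} (hT : Tr f T)
    {p q r u w : V} {k : ℝ × ℝ} (hpq : T p q) (hpr : T p r) (hrp : T r p) (hqr : q ≠ r)
    (huw : T u w) (h1 : 0 < o (f p) (f q) k) (h2 : 0 < o (f r) (f p) k)
    (h3 : 0 ≤ o (f q) (f r) k) (c : ℝ) (c0 : 0 < c) (c1 : c < 1) (hk : k = pa (f u) (f w) c)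
    (hu : 0 < o (f q) (f r) (f u)) (hup : u ≠ p) (hwp : w ≠ p) (hpos : 0 < o (f p) (f q) (f r)) :
    0 < o (f p) (f q) (f u) ∧ 0 < o (f r) (f p) (f u) := by
  have huq : u ≠ q := by
    rintro rfl
    have := o_self1 (f u) (f r)
    linarith
  have hur : u ≠ r := by
    rintro rfl
    have := o_self2 (f q) (f u)
    linarith
  have hpq' : p ≠ q := by
    rintro rfl
    have := o_self3 (f p) (f r)
    linarith
  have hpr' : p ≠ r := by
    rintro rfl
    have := o_self1 (f p) (f q)
    linarith
  have huw' : u ≠ w := by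
    rintro rfl
    exact hT.irr _ huw
  have g1 : o (f p) (f q) (f u) ≠ 0 := hT.gp.o p q u hpq' hup.symm huq.symm
  have g2 : o (f r) (f p) (f u) ≠ 0 := hT.gp.o r p u hpr'.symm hur.symm hup.symm
  have n1 : ¬ Xs (f p) (f q) (f u) (f w) := hT.cf p q u w hpq huw
  have n2 : ¬ Xs (f p) (f r) (f u) (f w) := hT.cf p r u w hpr huw
  have d1 : 0 < 1 - c := by linarith
  by_cases hwq : w = q
  · subst hwq
    have e1 : 0 < o (f p) (f w) (f u) := by
      rw [hk, o_pa, o_self2] at h1
      by_contra hcon
      push Not at hcon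
      nlinarith
    refine ⟨e1, ?_⟩
    by_contra hcon
    have e2 : o (f r) (f p) (f u) < 0 := lt_of_le_of_ne (not_lt.1 hcon) g2
    apply n2
    refine ⟨mul_neg_of (Or.inr ⟨?_, ?_⟩), mul_neg_of (Or.inl ⟨?_, ?_⟩)⟩
    · rw [o_swap2 (f r) (f p) (f u)]; linarith
    · rw [o_swap (f p) (f w) (f r)]; linarith
    · rw [show o (f u) (f w) (f p) = - o (f p) (f w) (f u) from by simp only [o]; ring]
      linarith
    · rw [o_rot2 (f w) (f r) (f u)]; exact hu
  by_cases hwr : w = r
  · subst hwr
    have e1 : 0 < o (f w) (f p) (f u) := by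
      rw [hk, o_pa, o_self1] at h2
      by_contra hcon
      push Not at hcon
      nlinarith
    refine ⟨?_, e1⟩
    by_contra hcon
    have e2 : o (f p) (f q) (f u) < 0 := lt_of_le_of_ne (not_lt.1 hcon) g1
    apply n1
    refine ⟨mul_neg_of (Or.inl ⟨e2, hpos⟩), mul_neg_of (Or.inr ⟨?_, ?_⟩)⟩
    · rw [o_rot2 (f w) (f p) (f u)]; exact e1
    · rw [show o (f u) (f w) (f q) = - o (f q) (f w) (f u) from by simp only [o]; ring]
      linarith
  have gp := hT.gp.o
  rcases tri (f p) (f q) (f r) (f u) (f w) k h1 h2 h3 (hk ▸ pa_open c0 c1) hu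
    (gp u w p huw' hup hwp) (gp u w q huw' huq hwq) (gp u w r huw' hur hwr) g1 g2 with h | h | h
  · exact h
  · exact absurd h n1
  · exact absurd h n2

theorem fce (tri : TriStmt) : FceStmt := by
  intro V _ f T p q hT hpq ⟨r0, hr0, hr0'⟩
  classical
  have hpq' : p ≠ q := by
    rintro rfl
    exact hT.irr _ hpq
  -- the choice of `r`
  obtain ⟨r, ⟨hr, hpos⟩, hmax⟩ := Set.exists_max_image {r : V | T p r ∧ 0 < o (f p) (f q) (f r)}
    (fun r => (((f q).1 - (f p).1) * ((f r).1 - (f p).1) +
      ((f q).2 - (f p).2) * ((f r).2 - (f p).2)) / o (f p) (f q) (f r)) (Set.toFinite _)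
    ⟨r0, hr0, hr0'⟩
  have hrmax : ∀ z, T p z → 0 < o (f p) (f q) (f z) → 0 ≤ o (f p) (f r) (f z) := by
    intro z hz hz'
    have h1 := hmax z ⟨hz, hz'⟩
    rw [div_le_div_iff₀ hz' hpos] at h1
    have hx : (f p).1 ≠ (f q).1 := hT.gp.x p q hpq'
    have hN : 0 < ((f q).1 - (f p).1) ^ 2 + ((f q).2 - (f p).2) ^ 2 := by
      have : 0 < ((f q).1 - (f p).1) ^ 2 := by
        apply sq_pos_of_ne_zero
        intro h
        apply hx
        linarith
      have := sq_nonneg ((f q).2 - (f p).2)
      linarith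
    have hid : (((f q).1 - (f p).1) ^ 2 + ((f q).2 - (f p).2) ^ 2) * o (f p) (f r) (f z) =
        (((f q).1 - (f p).1) * ((f r).1 - (f p).1) + ((f q).2 - (f p).2) * ((f r).2 - (f p).2)) *
          o (f p) (f q) (f z) - (((f q).1 - (f p).1) * ((f z).1 - (f p).1) +
          ((f q).2 - (f p).2) * ((f z).2 - (f p).2)) * o (f p) (f q) (f r) := by
      simp only [o]; ring
    by_contra hcon
    push Not at hcon
    have : (((f q).1 - (f p).1) ^ 2 + ((f q).2 - (f p).2) ^ 2) * o (f p) (f r) (f z) < 0 :=
      mul_neg_of_pos_of_neg hN hcon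
    linarith
  have hrp : T r p := hT.sym _ _ hr
  have hqr : q ≠ r := by
    rintro rfl
    have := o_self2 (f p) (f q)
    linarith
  have hqrp : o (f q) (f r) (f p) = o (f p) (f q) (f r) := o_rot _ _ _
  -- no vertex inside
  have hin : ∀ z, ¬ (0 < o (f p) (f q) (f z) ∧ 0 < o (f q) (f r) (f z) ∧
      0 < o (f r) (f p) (f z)) := by
    by_contra hcon
    push Not at hcon
    obtain ⟨z0, hz0⟩ := hcon
    obtain ⟨z, ⟨z1, z2, z3⟩, hzmax⟩ := Set.exists_max_image {z : V | 0 < o (f p) (f q) (f z) ∧
      0 < o (f q) (f r) (f z) ∧ 0 < o (f r) (f p) (f z)} (fun z => o (f q) (f r) (f z))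
      (Set.toFinite _) ⟨z0, hz0⟩
    have hpz : p ≠ z := by
      rintro rfl
      have := o_self1 (f p) (f q)
      linarith
    have hlt : o (f q) (f r) (f z) < o (f q) (f r) (f p) := by
      have := o_sum (f p) (f q) (f r) (f z)
      rw [hqrp]
      linarith
    have hTpz : T p z := by
      apply hT.mx p z hpz
      -- a crossing edge with `u` far
      have main : ∀ u w, T u w → Xs (f p) (f z) (f u) (f w) →
          ∀ k c, 0 < c → c < 1 → k = pa (f u) (f w) c → 0 < o (f p) (f q) k →
          0 < o (f r) (f p) k → o (f q) (f r) (f z) < o (f q) (f r) k →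
          ¬ o (f q) (f r) k ≤ o (f q) (f r) (f u) := by
        intro u w huw hX k c c0 c1 hk k1 k2 k3 hle
        have hup : u ≠ p := by
          rintro rfl
          have h1 := hX.1
          rw [o_self1] at h1
          simp at h1
        have hwp : w ≠ p := by
          rintro rfl
          have h1 := hX.1
          rw [o_self1] at h1
          simp at h1
        have hu : 0 < o (f q) (f r) (f u) := by linarith
        have := leave tri hT hpq hr hrp hqr huw k1 k2 (by linarith) c c0 c1 hk hu hup hwp hpos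
        have := hzmax u ⟨this.1, hu, this.2⟩
        linarith
      intro u w huw hX
      obtain ⟨a, c, a0, a1, c0, c1, hk⟩ := xs_point hX
      have k1 : 0 < o (f p) (f q) (pa (f p) (f z) a) := by
        rw [o_pa, o_self1]
        have := mul_pos a0 z1
        linarith
      have k2 : 0 < o (f r) (f p) (pa (f p) (f z) a) := by
        rw [o_pa, o_self2]
        have := mul_pos a0 z3
        linarith
      have k3 : o (f q) (f r) (f z) < o (f q) (f r) (pa (f p) (f z) a) := by
        rw [o_pa]
        nlinarith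
      have hsw : pa (f u) (f w) c = pa (f w) (f u) (1 - c) := by
        refine Prod.ext ?_ ?_
        · simp only [pa]; ring
        · simp only [pa]; ring
      have m1 := main u w huw hX _ c c0 c1 hk k1 k2 k3
      have m2 := main w u (hT.sym _ _ huw) (xs_swap2 hX) _ (1 - c) (by linarith) (by linarith)
        (hk.trans hsw) k1 k2 k3
      have hval : o (f q) (f r) (pa (f p) (f z) a) =
          (1 - c) * o (f q) (f r) (f u) + c * o (f q) (f r) (f w) := by rw [hk, o_pa]
      push Not at m1 m2
      nlinarith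
    have := hrmax z hTpz z1
    have h5 : o (f p) (f r) (f z) = - o (f r) (f p) (f z) := o_swap2 _ _ _
    linarith
  refine ⟨r, hpos, hpq, ?_, hrp, hin⟩
  -- the third side
  apply hT.mx q r hqr
  have main : ∀ u w, T u w → Xs (f q) (f r) (f u) (f w) →
      ∀ k c, 0 < c → c < 1 → k = pa (f u) (f w) c → 0 < o (f p) (f q) k →
      0 < o (f r) (f p) k → o (f q) (f r) k = 0 → ¬ 0 < o (f q) (f r) (f u) := by
    intro u w huw hX k c c0 c1 hk k1 k2 k3 hu
    have hw : o (f q) (f r) (f w) < 0 := by
      have := hX.1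
      rcases mul_neg_iff.1 this with h | h
      · exact h.2
      · linarith [h.1]
    have hwp : w ≠ p := by
      rintro rfl
      rw [hqrp] at hw
      linarith
    have hup : u ≠ p := by
      rintro rfl
      rw [hk, o_pa, o_self1] at k1
      rw [hk, o_pa, o_self2] at k2
      have e1 : 0 < o (f u) (f q) (f w) := by
        by_contra hcon
        push Not at hcon
        nlinarith
      have e2 : 0 < o (f r) (f u) (f w) := by
        by_contra hcon
        push Not at hcon
        nlinarith
      have := hrmax w huw e1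
      have h5 : o (f u) (f r) (f w) = - o (f r) (f u) (f w) := o_swap2 _ _ _
      linarith
    have := leave tri hT hpq hr hrp hqr huw k1 k2 (by linarith) c c0 c1 hk hu hup hwp hpos
    exact hin u ⟨this.1, hu, this.2⟩
  intro u w huw hX
  obtain ⟨a, c, a0, a1, c0, c1, hk⟩ := xs_point hX
  have k1 : 0 < o (f p) (f q) (pa (f q) (f r) a) := by
    rw [o_pa, o_self2]
    have := mul_pos a0 hpos
    linarith
  have k2 : 0 < o (f r) (f p) (pa (f q) (f r) a) := by
    rw [o_pa, o_self1, o_rot2]
    have := mul_pos (show 0 < 1 - a by linarith) hpos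
    linarith
  have k3 : o (f q) (f r) (pa (f q) (f r) a) = 0 := by
    rw [o_pa, o_self1, o_self2]
    ring
  have hsw : pa (f u) (f w) c = pa (f w) (f u) (1 - c) := by
    refine Prod.ext ?_ ?_
    · simp only [pa]; ring
    · simp only [pa]; ring
  have m1 := main u w huw hX _ c c0 c1 hk k1 k2 k3
  have m2 := main w u (hT.sym _ _ huw) (xs_swap2 hX) _ (1 - c) (by linarith) (by linarith)
    (hk.trans hsw) k1 k2 k3
  rcases mul_neg_iff.1 hX.1 with h | h
  · exact m1 h.1
  · exact m2 h.2

end Pool.Agent.SGE.H18
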