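import Pool.Agent.Helper18_SGE.Kit

noncomputable section

namespace Pool.Agent.SGE.H18

/-- slope -/
def sl (p q : ℝ × ℝ) : ℝ := (q.2 - p.2) / (q.1 - p.1)

theorem ht_sl (g h : ℝ × ℝ) (x : ℝ) : ht g h x = g.2 + sl g h * (x - g.1) := rfl

theorem ht_self1 (g h : ℝ × ℝ) : ht g h g.1 = g.2 := by
  rw [ht_sl]; ring

theorem ht_self2 {g h : ℝ × ℝ} (hne : g.1 ≠ h.1) : ht g h h.1 = h.2 := by
  have : h.1 - g.1 ≠ 0 := fun h0 => hne (by linarith)
  rw [ht_sl, sl, div_mul_cancel₀ _ this]; ring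

theorem ht_aff (g h : ℝ × ℝ) (x y : ℝ) : ht g h y = ht g h x + sl g h * (y - x) := by
  rw [ht_sl, ht_sl]; ring

theorem o_ht {g h : ℝ × ℝ} (hne : g.1 ≠ h.1) (z : ℝ × ℝ) :
    o g h z = (h.1 - g.1) * (z.2 - ht g h z.1) := by
  have : h.1 - g.1 ≠ 0 := fun h0 => hne (by linarith)
  rw [ht_sl, sl, o]
  field_simp
  ring

theorem ht_pa {p q : ℝ × ℝ} (hne : p.1 ≠ q.1) (a : ℝ) : ht p q (pa p q a).1 = (pa p q a).2 := by
  have : q.1 - p.1 ≠ 0 := fun h0 => hne (by linarith)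
  rw [ht_sl, sl, pa]
  field_simp
  ring

/-- two segments of which the first is below the second at one point, above at a later one -/
theorem xl {g h g' h' : ℝ × ℝ} (hg : g.1 < h.1) (hg' : g'.1 < h'.1) {x1 x2 : ℝ}
    (a1 : g.1 ≤ x1) (a2 : g'.1 ≤ x1) (h12 : x1 < x2) (b1 : x2 ≤ h.1) (b2 : x2 ≤ h'.1)
    (e1 : ht g' h' x1 < ht g h x1) (e2 : ht g h x2 < ht g' h' x2) : Xs g h g' h' := by
  have k1 := ht_aff g h x1 x2
  have k2 := ht_aff g' h' x1 x2
  have hk : 0 < sl g' h' - sl g h := by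
    by_contra hcon
    push Not at hcon
    have : (sl g' h' - sl g h) * (x2 - x1) ≤ 0 :=
      mul_nonpos_of_nonpos_of_nonneg hcon (by linarith)
    nlinarith
  have low : ∀ x, x ≤ x1 → ht g' h' x < ht g h x := by
    intro x hx
    have l1 := ht_aff g h x1 x
    have l2 := ht_aff g' h' x1 x
    have : 0 ≤ (sl g' h' - sl g h) * (x1 - x) := mul_nonneg hk.le (by linarith)
    nlinarith
  have upp : ∀ x, x2 ≤ x → ht g h x < ht g' h' x := by
    intro x hx
    have l1 := ht_aff g h x2 x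
    have l2 := ht_aff g' h' x2 x
    have : 0 ≤ (sl g' h' - sl g h) * (x - x2) := mul_nonneg hk.le (by linarith)
    nlinarith
  refine ⟨mul_neg_of (Or.inl ⟨?_, ?_⟩), mul_neg_of (Or.inr ⟨?_, ?_⟩)⟩
  · rw [o_ht hg.ne]
    have := low g'.1 a2
    rw [ht_self1] at this
    exact mul_neg_of_pos_of_neg (by linarith) (by linarith)
  · rw [o_ht hg.ne]
    have := upp h'.1 b2
    rw [ht_self2 hg'.ne] at this
    exact mul_pos (by linarith) (by linarith)
  · rw [o_ht hg'.ne]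
    have := low g.1 a1
    rw [ht_self1] at this
    exact mul_pos (by linarith) (by linarith)
  · rw [o_ht hg'.ne]
    have := upp h.1 b1
    rw [ht_self2 hg.ne] at this
    exact mul_neg_of_pos_of_neg (by linarith) (by linarith)

theorem sl_lt_of {p z : ℝ × ℝ} {σ : ℝ} (h : z.1 < p.1) (h2 : p.2 + σ * (z.1 - p.1) < z.2) :
    sl p z < σ := by
  have h3 := ht_self2 (g := p) (h := z) h.ne'
  rw [ht_sl] at h3
  by_contra hcon
  push Not at hcon
  have : 0 ≤ (sl p z - σ) * (p.1 - z.1) := mul_nonneg (by linarith) (by linarith)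
  nlinarith

/-- the intersection point -/
theorem xs_ht {p s g h : ℝ × ℝ} (hs : s.1 < p.1) (hg : g.1 < h.1) (hX : Xs p s g h) :
    ∃ x, s.1 < x ∧ x < p.1 ∧ g.1 < x ∧ x < h.1 ∧ ht g h x = ht p s x ∧ sl g h ≠ sl p s := by
  obtain ⟨a, b, a0, a1, b0, b1, hk⟩ := xs_point hX
  have e1 := ht_pa (p := p) (q := s) hs.ne' a
  have e2 := ht_pa (p := g) (q := h) hg.ne b
  rw [← hk] at e2
  refine ⟨(pa p s a).1, ?_, ?_, ?_, ?_, by rw [e1, e2], ?_⟩
  · simp only [pa]; nlinarith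
  · simp only [pa]; nlinarith
  · rw [hk]; simp only [pa]; nlinarith
  · rw [hk]; simp only [pa]; nlinarith
  · intro hsl
    have h1 := hX.1
    have h2 : ht g h g.1 = ht p s g.1 := by
      rw [ht_aff g h (pa p s a).1 g.1, ht_aff p s (pa p s a).1 g.1, e1, e2, hsl]
    rw [o_ht hs.ne', ← h2, ht_self1] at h1
    simp at h1

end Pool.Agent.SGE.H18
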