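import Pool.Agent.SGE.Stmts

noncomputable section

namespace Pool.Agent.SGE.H18

theorem o_rot (p q r : ℝ × ℝ) : o q r p = o p q r := by simp only [o]; ring

theorem o_rot2 (p q r : ℝ × ℝ) : o r p q = o p q r := by simp only [o]; ring

theorem o_swap (p q r : ℝ × ℝ) : o p r q = - o p q r := by simp only [o]; ring

theorem o_swap2 (p q r : ℝ × ℝ) : o q p r = - o p q r := by simp only [o]; ring

theorem o_swap3 (p q r : ℝ × ℝ) : o r q p = - o p q r := by simp only [o]; ring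

theorem o_sum (p q r t : ℝ × ℝ) : o p q t + o q r t + o r p t = o p q r := by
  simp only [o]; ring

theorem o_self1 (p q : ℝ × ℝ) : o p q p = 0 := by simp only [o]; ring

theorem o_self2 (p q : ℝ × ℝ) : o p q q = 0 := by simp only [o]; ring

theorem o_self3 (p q : ℝ × ℝ) : o p p q = 0 := by simp only [o]; ring

/-- the point of the line `p q` with parameter `a` -/
def pa (p q : ℝ × ℝ) (a : ℝ) : ℝ × ℝ := (p.1 + a * (q.1 - p.1), p.2 + a * (q.2 - p.2))

theorem o_pa (x y p q : ℝ × ℝ) (a : ℝ) :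
    o x y (pa p q a) = (1 - a) * o x y p + a * o x y q := by
  simp only [o, pa]; ring

theorem pa_open {p q : ℝ × ℝ} {a : ℝ} (h0 : 0 < a) (h1 : a < 1) :
    pa p q a ∈ openSegment ℝ p q := by
  refine ⟨1 - a, a, by linarith, h0, by ring, ?_⟩
  refine Prod.ext ?_ ?_
  · simp only [pa, Prod.fst_add, Prod.smul_fst, smul_eq_mul]; ring
  · simp only [pa, Prod.snd_add, Prod.smul_snd, smul_eq_mul]; ring

theorem frac_between {A B : ℝ} (h : A * B < 0) : 0 < A / (A - B) ∧ A / (A - B) < 1 := by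
  rcases mul_neg_iff.1 h with ⟨h1, h2⟩ | ⟨h1, h2⟩
  · have h3 : 0 < A - B := by linarith
    exact ⟨div_pos h1 h3, (div_lt_one h3).2 (by linarith)⟩
  · have h3 : A - B < 0 := by linarith
    exact ⟨div_pos_of_neg_of_neg h1 h3, (div_lt_one_of_neg h3).2 (by linarith)⟩

theorem xs_point {p q r s : ℝ × ℝ} (h : Xs p q r s) :
    ∃ a b : ℝ, 0 < a ∧ a < 1 ∧ 0 < b ∧ b < 1 ∧ pa p q a = pa r s b := by
  obtain ⟨h1, h2⟩ := h
  obtain ⟨b0, b1⟩ := frac_between h1
  obtain ⟨a0, a1⟩ := frac_between h2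
  refine ⟨_, _, a0, a1, b0, b1, ?_⟩
  have hN : o r s p - o r s q ≠ 0 := by
    intro h0
    rw [h0] at a0
    simp at a0
  have hM : o p q r - o p q s = -(o r s p - o r s q) := by simp only [o]; ring
  rw [hM]
  have key1 : p.1 * (o r s p - o r s q) + o r s p * (q.1 - p.1)
      = r.1 * (o r s p - o r s q) - o p q r * (s.1 - r.1) := by simp only [o]; ring
  have key2 : p.2 * (o r s p - o r s q) + o r s p * (q.2 - p.2)
      = r.2 * (o r s p - o r s q) - o p q r * (s.2 - r.2) := by simp only [o]; ring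
  generalize o r s p - o r s q = N at *
  refine Prod.ext ?_ ?_
  · simp only [pa]
    field_simp
    linarith
  · simp only [pa]
    field_simp
    linarith

theorem xs_symm {p q r s : ℝ × ℝ} (h : Xs p q r s) : Xs r s p q := ⟨h.2, h.1⟩

theorem xs_swap1 {p q r s : ℝ × ℝ} (h : Xs p q r s) : Xs q p r s := by
  refine ⟨?_, ?_⟩
  · rw [o_swap2 p q r, o_swap2 p q s]
    have := h.1
    nlinarith
  · have := h.2
    rwa [mul_comm]

theorem xs_swap2 {p q r s : ℝ × ℝ} (h : Xs p q r s) : Xs p q s r :=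
  xs_symm (xs_swap1 (xs_symm h))

theorem mul_neg_of {x y : ℝ} (h : (x < 0 ∧ 0 < y) ∨ (0 < x ∧ y < 0)) : x * y < 0 := by
  rcases h with ⟨h1, h2⟩ | ⟨h1, h2⟩
  · exact mul_neg_of_neg_of_pos h1 h2
  · exact mul_neg_of_pos_of_neg h1 h2

end Pool.Agent.SGE.H18
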