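import Pool.Agent.Helper18_SGE.Hts

noncomputable section

namespace Pool.Agent.SGE.H18

/-- mirror image -/
def mir (z : ℝ × ℝ) : ℝ × ℝ := (-z.1, z.2)

theorem o_mir (p q r : ℝ × ℝ) : o (mir p) (mir q) (mir r) = - o p q r := by
  simp only [o, mir]; ring

theorem xs_mir {p q r s : ℝ × ℝ} : Xs (mir p) (mir q) (mir r) (mir s) ↔ Xs p q r s := by
  simp only [Xs, o_mir, neg_mul_neg]

theorem tr_mir {V : Type} {f : V → ℝ × ℝ} {T : V → V → Prop} (hT : Tr f T) :
    Tr (fun v => mir (f v)) T where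
  gp := ⟨fun u v h h2 => hT.gp.x u v h (neg_injective h2), fun u v w h1 h2 h3 => by
    rw [o_mir]; exact neg_ne_zero.2 (hT.gp.o u v w h1 h2 h3)⟩
  sym := hT.sym
  irr := hT.irr
  cf := fun u v w z h1 h2 h3 => hT.cf u v w z h1 h2 (xs_mir.1 h3)
  mx := fun u v h h2 => hT.mx u v h fun w z h3 h4 => h2 w z h3 (xs_mir.2 h4)

theorem ht_mir {g h : ℝ × ℝ} (hne : g.1 ≠ h.1) (x : ℝ) : ht (mir h) (mir g) (-x) = ht g h x := by
  have h1 : h.1 - g.1 ≠ 0 := fun h0 => hne (by linarith)
  have h2 : -g.1 - -h.1 ≠ 0 := fun h0 => hne (by linarith)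
  simp only [ht, mir]
  have e : -g.1 - -h.1 = h.1 - g.1 := by ring
  rw [e]
  field_simp
  ring

theorem pos_ht {g h z : ℝ × ℝ} (hlt : g.1 < h.1) (hz : 0 < o g h z) : ht g h z.1 < z.2 := by
  rw [o_ht hlt.ne] at hz
  by_contra hc
  push Not at hc
  have : (h.1 - g.1) * (z.2 - ht g h z.1) ≤ 0 :=
    mul_nonpos_of_nonneg_of_nonpos (by linarith) (by linarith)
  linarith

theorem neg_ht {g h z : ℝ × ℝ} (hlt : g.1 < h.1) (hz : o g h z < 0) : z.2 < ht g h z.1 := by
  rw [o_ht hlt.ne] at hz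
  by_contra hc
  push Not at hc
  have : 0 ≤ (h.1 - g.1) * (z.2 - ht g h z.1) := mul_nonneg (by linarith) (by linarith)
  linarith

theorem pos_of_ht {g h z : ℝ × ℝ} (hlt : g.1 < h.1) (hz : ht g h z.1 < z.2) : 0 < o g h z := by
  rw [o_ht hlt.ne]
  exact mul_pos (by linarith) (by linarith)

theorem neg_of_ht {g h z : ℝ × ℝ} (hlt : g.1 < h.1) (hz : z.2 < ht g h z.1) : o g h z < 0 := by
  rw [o_ht hlt.ne]
  exact mul_neg_of_pos_of_neg (by linarith) (by linarith)

theorem pnt (vis : VisStmt) (hul : HulStmt) : PntStmt := by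
  intro V _ f T a b c p q hT hO hpq hx hac hcb
  obtain ⟨hTab, hTac, hTcb⟩ := hul hT hO
  have hqp : q ≠ p := by
    rintro rfl
    exact lt_irrefl _ hx
  by_cases hpb : p = b
  · subst hpb
    have := hO.xb q hqp
    linarith
  by_cases hpa : p = a
  · subst hpa
    have hqc : q ≠ c := fun h => hac ⟨rfl, h⟩
    refine ⟨c, hTac, ?_⟩
    have := hO.oac q hqp hqc
    rw [o_swap]
    linarith
  by_cases hpc : p = c
  · subst hpc
    have hqb : q ≠ b := fun h => hcb ⟨rfl, h⟩
    refine ⟨b, hTcb, ?_⟩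
    have := hO.ocb q hqp hqb
    rw [o_swap]
    linarith
  -- the first edge above `p`
  obtain ⟨⟨g, h⟩, ⟨hgh, hgp, hph, hbel⟩, hmin⟩ := Set.exists_min_image {e : V × V | T e.1 e.2 ∧
    (f e.1).1 < (f p).1 ∧ (f p).1 < (f e.2).1 ∧ o (f e.1) (f e.2) (f p) < 0}
    (fun e => ht (f e.1) (f e.2) (f p).1) (Set.toFinite _) (by
      rcases lt_or_gt_of_ne (hT.gp.x p c hpc) with h1 | h1
      · exact ⟨(a, c), hTac, hO.xa p hpa, h1, hO.oac p hpa hpc⟩
      · exact ⟨(c, b), hTcb, h1, hO.xb p hpb, hO.ocb p hpc hpb⟩)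
  simp only at hgh hgp hph hbel hmin
  have hfirst : ∀ g' h', T g' h' → (f g').1 < (f p).1 → (f p).1 < (f h').1 →
      o (f g') (f h') (f p) < 0 → ht (f g) (f h) (f p).1 ≤ ht (f g') (f h') (f p).1 :=
    fun g' h' h1 h2 h3 h4 => hmin (g', h') ⟨h1, h2, h3, h4⟩
  have hgh1 : (f g).1 < (f h).1 := hgp.trans hph
  have hL := neg_ht hgh1 hbel
  by_cases hg : ht (f p) (f q) (f g).1 < (f g).2
  · obtain ⟨s, hs, s1, s2, s3, s4⟩ := vis hT hgh hgp hph hbel hfirst
    refine ⟨s, hs, pos_of_ht hx ?_⟩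
    rcases s4 with rfl | s4
    · exact hg
    · -- `s` is above the line `p g`
      have e1 := o_ht hgp.ne' (f s)
      rw [e1] at s4
      have e2 : ht (f p) (f g) (f s).1 < (f s).2 := by
        by_contra hc
        push Not at hc
        have := mul_nonneg_of_nonpos_of_nonpos (show (f g).1 - (f p).1 ≤ 0 by linarith)
          (show (f s).2 - ht (f p) (f g) (f s).1 ≤ 0 by linarith)
        linarith
      have e3 : sl (f p) (f g) < sl (f p) (f q) := sl_lt_of hgp hg
      have e4 : ht (f p) (f q) (f s).1 ≤ ht (f p) (f g) (f s).1 := by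
        rw [ht_sl, ht_sl]
        have := mul_nonneg (show 0 ≤ sl (f p) (f q) - sl (f p) (f g) by linarith)
          (show 0 ≤ (f p).1 - (f s).1 by linarith)
        nlinarith
      linarith
  · -- `h` is above the line
    have hh : ht (f p) (f q) (f h).1 < (f h).2 := by
      push Not at hg
      have a1 := ht_self1 (f p) (f q)
      have a2 := ht_aff (f p) (f q) (f p).1 (f g).1
      have a3 := ht_aff (f p) (f q) (f p).1 (f h).1
      have a4 := ht_aff (f g) (f h) (f p).1 (f g).1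
      have a5 := ht_aff (f g) (f h) (f p).1 (f h).1
      have a6 := ht_self1 (f g) (f h)
      have a7 := ht_self2 hgh1.ne
      by_contra hcon
      push Not at hcon
      have b1 : 0 < (sl (f p) (f q) - sl (f g) (f h)) * ((f g).1 - (f p).1) := by nlinarith
      have b2 : 0 < (sl (f p) (f q) - sl (f g) (f h)) * ((f h).1 - (f p).1) := by nlinarith
      have b3 : 0 < sl (f p) (f q) - sl (f g) (f h) := by
        by_contra hc
        push Not at hc
        have := mul_nonpos_of_nonpos_of_nonneg hc (show 0 ≤ (f h).1 - (f p).1 by linarith)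
        linarith
      have := mul_pos b3 (show 0 < (f p).1 - (f g).1 by linarith)
      nlinarith
    obtain ⟨s, hs, s1, s2, s3, s4⟩ := vis (tr_mir hT) (hT.sym _ _ hgh) (p := p)
      (show (mir (f h)).1 < (mir (f p)).1 from neg_lt_neg hph)
      (show (mir (f p)).1 < (mir (f g)).1 from neg_lt_neg hgp)
      (show o (mir (f h)) (mir (f g)) (mir (f p)) < 0 from by
        rw [o_mir, o_swap2 (f g) (f h)]; linarith)
      (by
        intro g' h' k1 k2 k3 k4
        have j2 : (f p).1 < (f g').1 := neg_lt_neg_iff.1 k2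
        have j3 : (f h').1 < (f p).1 := neg_lt_neg_iff.1 k3
        rw [o_mir, o_swap2 (f h') (f g')] at k4
        have j := hfirst h' g' (hT.sym _ _ k1) j3 j2 (by linarith)
        rw [show (mir (f p)).1 = -(f p).1 from rfl, ht_mir hgh1.ne, ht_mir (j3.trans j2).ne]
        exact j)
    have t1 : (f s).1 ≤ (f h).1 := neg_le_neg_iff.1 s1
    have t2 : (f p).1 < (f s).1 := neg_lt_neg_iff.1 s2
    refine ⟨s, hs, pos_of_ht hx ?_⟩
    rcases s4 with rfl | s4
    · exact hh
    · rw [o_mir] at s4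
      have e2 : ht (f p) (f h) (f s).1 < (f s).2 := pos_ht hph (by linarith)
      -- slopes
      have a1 := ht_self2 hph.ne
      rw [ht_sl] at a1 hh
      have e3 : sl (f p) (f q) < sl (f p) (f h) := by
        by_contra hc
        push Not at hc
        have := mul_nonneg (show 0 ≤ sl (f p) (f q) - sl (f p) (f h) by linarith)
          (show 0 ≤ (f h).1 - (f p).1 by linarith)
        nlinarith
      have e4 : ht (f p) (f q) (f s).1 ≤ ht (f p) (f h) (f s).1 := by
        rw [ht_sl, ht_sl]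
        have := mul_nonneg (show 0 ≤ sl (f p) (f h) - sl (f p) (f q) by linarith)
          (show 0 ≤ (f s).1 - (f p).1 by linarith)
        nlinarith
      linarith

end Pool.Agent.SGE.H18
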