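import Pool.Agent.Helper18_SGE.Hts

noncomputable section

namespace Pool.Agent.SGE.H18

theorem vis : VisStmt := by
  intro V _ f T p g h hT hgh hgp hph hbel hfirst
  have hgh1 : (f g).1 < (f h).1 := hgp.trans hph
  have hghne : g ≠ h := by
    rintro rfl
    exact lt_irrefl _ hgh1
  have hLp : (f p).2 < ht (f g) (f h) (f p).1 := by
    rw [o_ht hgh1.ne] at hbel
    by_contra hcon
    push Not at hcon
    have : 0 ≤ ((f h).1 - (f g).1) * ((f p).2 - ht (f g) (f h) (f p).1) :=
      mul_nonneg (by linarith) (by linarith)
    linarith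
  obtain ⟨s, ⟨s1, s2, s3, s4⟩, hmin⟩ := Set.exists_min_image {s : V | (f g).1 ≤ (f s).1 ∧
    (f s).1 < (f p).1 ∧ (s = g ∨ o (f g) (f h) (f s) < 0) ∧ (s = g ∨ o (f p) (f g) (f s) < 0)}
    (fun s => sl (f p) (f s)) (Set.toFinite _) ⟨g, le_refl _, hgp, Or.inl rfl, Or.inl rfl⟩
  refine ⟨s, ?_, s1, s2, s3, s4⟩
  have hminG : sl (f p) (f s) ≤ sl (f p) (f g) := hmin g ⟨le_refl _, hgp, Or.inl rfl, Or.inl rfl⟩
  -- no better candidate
  have P1 : ∀ z, (f g).1 ≤ (f z).1 → (f z).1 < (f p).1 → (z = g ∨ o (f g) (f h) (f z) < 0) →
      ¬ ht (f p) (f s) (f z).1 < (f z).2 := by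
    intro z z1 z2 z3 z4
    have hz4 : z = g ∨ o (f p) (f g) (f z) < 0 := by
      right
      rw [o_ht hgp.ne']
      apply mul_neg_of_neg_of_pos (by linarith)
      have h1 : ht (f p) (f g) (f z).1 ≤ ht (f p) (f s) (f z).1 := by
        rw [ht_sl, ht_sl]
        have : 0 ≤ (sl (f p) (f g) - sl (f p) (f s)) * ((f p).1 - (f z).1) :=
          mul_nonneg (by linarith) (by linarith)
        nlinarith
      linarith
    have h1 := hmin z ⟨z1, z2, z3, hz4⟩
    have h2 := sl_lt_of z2 (show (f p).2 + sl (f p) (f s) * ((f z).1 - (f p).1) < (f z).2 from z4)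
    exact absurd h1 (not_le.2 h2)
  have hps : p ≠ s := by
    rintro rfl
    exact lt_irrefl _ s2
  -- the segment `p s` is below the edge `g h`
  have P2 : ∀ x, (f s).1 < x → x < (f p).1 → ht (f p) (f s) x < ht (f g) (f h) x := by
    intro x x1 x2
    have e1 : (f s).2 ≤ ht (f g) (f h) (f s).1 := by
      rcases s3 with rfl | s3
      · rw [ht_self1]
      · rw [o_ht hgh1.ne] at s3
        by_contra hcon
        push Not at hcon
        have : 0 ≤ ((f h).1 - (f g).1) * ((f s).2 - ht (f g) (f h) (f s).1) :=
          mul_nonneg (by linarith) (by linarith)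
        linarith
    have e2 : ht (f p) (f s) (f s).1 = (f s).2 := ht_self2 s2.ne'
    have e3 : ht (f p) (f s) (f p).1 = (f p).2 := ht_self1 _ _
    have a1 := ht_aff (f p) (f s) x (f s).1
    have a2 := ht_aff (f g) (f h) x (f s).1
    have a3 := ht_aff (f p) (f s) x (f p).1
    have a4 := ht_aff (f g) (f h) x (f p).1
    by_contra hcon
    push Not at hcon
    have b1 : 0 ≤ (sl (f g) (f h) - sl (f p) (f s)) * ((f s).1 - x) := by nlinarith
    have b2 : 0 < (sl (f g) (f h) - sl (f p) (f s)) * ((f p).1 - x) := by nlinarith
    have b3 : 0 < sl (f g) (f h) - sl (f p) (f s) := by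
      by_contra hc
      push Not at hc
      have := mul_nonpos_of_nonpos_of_nonneg hc (show 0 ≤ (f p).1 - x by linarith)
      linarith
    have b4 := mul_pos b3 (show 0 < x - (f s).1 by linarith)
    nlinarith
  apply hT.mx p s hps
  have main : ∀ g' h', T g' h' → (f g').1 < (f h').1 → ¬ Xs (f p) (f s) (f g') (f h') := by
    intro g' h' hgh' hlt hX
    obtain ⟨x, x1, x2, x3, x4, hx, hsl⟩ := xs_ht s2 hlt hX
    have hL : ht (f g') (f h') x < ht (f g) (f h) x := by
      rw [hx]; exact P2 x x1 x2
    have hne0 : o (f p) (f s) (f h') ≠ 0 := by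
      intro h0
      have := hX.1
      rw [h0] at this
      simp at this
    rcases lt_or_gt_of_ne hsl with hk | hk
    · -- `g'` is above the line
      have above : ∀ z, z < x → ht (f p) (f s) z < ht (f g') (f h') z := by
        intro z hz
        rw [ht_aff (f g') (f h') x z, ht_aff (f p) (f s) x z, hx]
        have := mul_pos (show 0 < sl (f p) (f s) - sl (f g') (f h') by linarith)
          (show 0 < x - z by linarith)
        nlinarith
      by_cases hc : (f g').1 < (f g).1
      · have e1 : (f g).2 ≤ ht (f p) (f s) (f g).1 := by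
          have e2 : ht (f p) (f g) (f g).1 = (f g).2 := ht_self2 hgp.ne'
          rw [← e2, ht_sl, ht_sl]
          have : 0 ≤ (sl (f p) (f g) - sl (f p) (f s)) * ((f p).1 - (f g).1) :=
            mul_nonneg (by linarith) (by linarith)
          nlinarith
        have e3 := above (f g).1 (lt_of_le_of_lt s1 x1)
        exact hT.cf g' h' g h hgh' hgh (xl hlt hgh1 (x1 := (f g).1) (x2 := x) hc.le (le_refl _)
          (lt_of_le_of_lt s1 x1) x4.le (by linarith) (by rw [ht_self1]; linarith) hL)
      · push Not at hc
        have e1 : ht (f p) (f s) (f g').1 < (f g').2 := by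
          have := above (f g').1 x3
          rwa [ht_self1] at this
        refine P1 g' hc (by linarith) ?_ e1
        by_cases hg : g' = g
        · exact Or.inl hg
        · right
          have hg2 : g' ≠ h := by
            rintro rfl
            linarith
          have h0 : o (f g) (f h) (f g') ≠ 0 := hT.gp.o g h g' hghne (Ne.symm hg) (Ne.symm hg2)
          by_contra hcon
          have hpos : 0 < o (f g) (f h) (f g') := lt_of_le_of_ne (not_lt.1 hcon) (Ne.symm h0)
          rw [o_ht hgh1.ne] at hpos
          have e2 : ht (f g) (f h) (f g').1 < (f g').2 := by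
            by_contra hc2
            push Not at hc2
            have : ((f h).1 - (f g).1) * ((f g').2 - ht (f g) (f h) (f g').1) ≤ 0 :=
              mul_nonpos_of_nonneg_of_nonpos (by linarith) (by linarith)
            linarith
          exact hT.cf g' h' g h hgh' hgh (xl hlt hgh1 (x1 := (f g').1) (x2 := x) (le_refl _) hc
            x3 x4.le (by linarith) (by rw [ht_self1]; exact e2) hL)
    · -- `h'` is above the line
      have above : ∀ z, x < z → ht (f p) (f s) z < ht (f g') (f h') z := by
        intro z hz
        rw [ht_aff (f g') (f h') x z, ht_aff (f p) (f s) x z, hx]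
        have := mul_pos (show 0 < sl (f g') (f h') - sl (f p) (f s) by linarith)
          (show 0 < z - x by linarith)
        nlinarith
      by_cases hc : (f h').1 < (f p).1
      · have e1 : ht (f p) (f s) (f h').1 < (f h').2 := by
          have := above (f h').1 x4
          rwa [ht_self2 hlt.ne] at this
        refine P1 h' (by linarith) hc ?_ e1
        right
        have hg : h' ≠ g := by
          rintro rfl
          linarith
        have hg2 : h' ≠ h := by
          rintro rfl
          linarith
        have h0 : o (f g) (f h) (f h') ≠ 0 := hT.gp.o g h h' hghne (Ne.symm hg) (Ne.symm hg2)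
        by_contra hcon
        have hpos : 0 < o (f g) (f h) (f h') := lt_of_le_of_ne (not_lt.1 hcon) (Ne.symm h0)
        rw [o_ht hgh1.ne] at hpos
        have e2 : ht (f g) (f h) (f h').1 < (f h').2 := by
          by_contra hc2
          push Not at hc2
          have : ((f h).1 - (f g).1) * ((f h').2 - ht (f g) (f h) (f h').1) ≤ 0 :=
            mul_nonpos_of_nonneg_of_nonpos (by linarith) (by linarith)
          linarith
        exact hT.cf g h g' h' hgh hgh' (xl hgh1 hlt (x1 := x) (x2 := (f h').1) (by linarith) x3.le
          x4 (by linarith) (le_refl _) hL (by rw [ht_self2 hlt.ne]; exact e2))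
      · have hph' : h' ≠ p := by
          rintro rfl
          exact hne0 (o_self1 _ _)
        have hc2 : (f p).1 < (f h').1 := lt_of_le_of_ne (not_lt.1 hc) (hT.gp.x p h' hph'.symm)
        have e1 : (f p).2 < ht (f g') (f h') (f p).1 := by
          have := above (f p).1 x2
          rwa [ht_self1] at this
        have e2 : o (f g') (f h') (f p) < 0 := by
          rw [o_ht hlt.ne]
          exact mul_neg_of_pos_of_neg (by linarith) (by linarith)
        have e3 := hfirst g' h' hgh' (by linarith) hc2 e2
        -- at the right end the edge is above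
        have e4 : (f p).1 < min (f h).1 (f h').1 := lt_min hph hc2
        have hk2 : 0 < sl (f g') (f h') - sl (f g) (f h) := by
          have a1 := ht_aff (f g') (f h') x (f p).1
          have a2 := ht_aff (f g) (f h) x (f p).1
          by_contra hcon
          push Not at hcon
          have := mul_nonpos_of_nonpos_of_nonneg hcon (show 0 ≤ (f p).1 - x by linarith)
          nlinarith
        have e5 : ht (f g) (f h) (min (f h).1 (f h').1) < ht (f g') (f h') (min (f h).1 (f h').1) := by
          rw [ht_aff (f g) (f h) (f p).1, ht_aff (f g') (f h') (f p).1]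
          have := mul_pos hk2 (show 0 < min (f h).1 (f h').1 - (f p).1 by linarith)
          nlinarith
        exact hT.cf g h g' h' hgh hgh' (xl hgh1 hlt (x1 := x) (x2 := min (f h).1 (f h').1)
          (by linarith) x3.le (x2.trans e4) (min_le_left _ _) (min_le_right _ _) hL e5)
  intro g' h' hgh' hX
  have hne : g' ≠ h' := by
    rintro rfl
    exact hT.irr _ hgh'
  rcases lt_or_gt_of_ne (hT.gp.x g' h' hne) with hlt | hlt
  · exact main g' h' hgh' hlt hX
  · exact main h' g' (hT.sym _ _ hgh') hlt (xs_swap2 hX)

end Pool.Agent.SGE.H18
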